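import Pool.Agent.H57.FsG

set_option autoImplicit false

namespace Pool.Agent.Results.MP_d40573_lc.Independent

open Cardinal Order Set

/-- The well-order of the initial ordinal of `κ⁺`. -/
abbrev Sc (κ : Cardinal.{0}) : Type := (succ κ).ord.ToType

/-- The relation of Q1 for `λ = κ`; `Δ` is colour `1` and its complement is colour `0`. -/
def R (κ : Cardinal.{0}) : Prop :=
  ∀ Δ : Set (Sc κ × Sc κ),
    (∃ H₁ H₂ : Set (Sc κ), #H₁ = succ κ ∧ #H₂ = κ ∧ H₁ ×ˢ H₂ ⊆ Δᶜ) ∨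
    ∃ H₁ H₂ : Set (Sc κ), #H₁ = ℵ₁ ∧ #H₂ = κ ∧ H₁ ×ˢ H₂ ⊆ Δ

/-- The points of cofinality `ω₁` below `κ⁺` form a set in the approachability ideal `I[κ⁺]`. -/
def AP (κ : Cardinal.{0}) : Prop :=
  ∃ (a : Sc κ → Set (Sc κ)) (C : Set (Sc κ)), IsClub C ∧ ∀ δ ∈ C, cof (Iio δ) = ℵ₁ →
    ∃ A ⊆ Iio δ, (∀ x < δ, ∃ y ∈ A, x ≤ y) ∧
      ∀ γ < δ, (A ∩ Iio γ).Countable ∧ ∃ α < δ, a α = A ∩ Iio γ

/-- The Chang property from `(κ⁺, κ)` to `(ℵ₁, ℵ₀)`. -/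
def Chang (κ : Cardinal.{0}) : Prop :=
  ∀ (L : FirstOrder.Language.{0, 0}) [Countable L.Symbols] (M : Type) [L.Structure M]
    (r : L.Relations 1), #M = succ κ →
    #{m : M | FirstOrder.Language.Structure.RelMap r ![m]} = κ →
    ∃ N : L.ElementarySubstructure M, #N = ℵ₁ ∧
      #{m : M | m ∈ N ∧ FirstOrder.Language.Structure.RelMap r ![m]} = ℵ₀

/-- The pseudo-intersection number exceeds `ℵ₁`. -/
def PBig : Prop :=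
  ∀ 𝓕 : Set (Set ℕ), #𝓕 ≤ ℵ₁ → (∀ T ⊆ 𝓕, T.Finite → (⋂₀ T).Infinite) →
    ∃ X : Set ℕ, X.Infinite ∧ ∀ F ∈ 𝓕, (X \ F).Finite

/-- Forcing form of the relation: `In q z` says that `q` forces `z` into colour `1`; then densely
many `q` force a rectangle of the required sizes into one colour. -/
def Forced (κ : Cardinal.{0}) (P : Type) [Preorder P] : Prop :=
  ∀ In : P → Sc κ × Sc κ → Prop, (∀ q r z, r ≤ q → In q z → In r z) → ∀ p, ∃ q ≤ p,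
    (∃ H₁ H₂ : Set (Sc κ), #H₁ = succ κ ∧ #H₂ = κ ∧ ∀ z ∈ H₁ ×ˢ H₂, ∀ r ≤ q, ¬ In r z) ∨
    ∃ H₁ H₂ : Set (Sc κ), #H₁ = ℵ₁ ∧ #H₂ = κ ∧ ∀ z ∈ H₁ ×ˢ H₂, In q z

theorem result (κ : Cardinal.{0}) (hu : ℵ₀ < κ) (hc : κ.ord.cof = ℵ₀) :
    (2 ^ κ = succ κ → AP κ → ¬ R κ) ∧
    (κ.IsStrongLimit → Chang κ → PBig → R κ ∧ ∀ (P : Type) [Preorder P], #P < κ →
      (∀ r : ℕ → P, Antitone r → ∃ q, ∀ n, q ≤ r n) → Forced κ P) := by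
  have Rg := H82.LadA.reg_toType (isRegular_succ hu.le)
  refine ⟨fun hp ⟨a, C, hC, ha⟩ h => ?_, fun hl hcc hp => ?_⟩
  · obtain ⟨f, f1, f2⟩ := H57.Fs.neg2 Rg hu hc hp hC ha ((le_succ κ).trans Rg.card.ge) Rg.card.le
    rcases h {z | z.2 ∈ f z.1} with ⟨B, A, b, a, k⟩ | ⟨B, A, b, a, k⟩
    · obtain ⟨y, hy, β, hβ, l⟩ := f1 A B a b
      exact k (mk_mem_prod hβ hy) l
    · obtain ⟨y, hy, β, hβ, l⟩ := f2 A B a b
      exact l (k (mk_mem_prod hβ hy))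
  obtain ⟨ν, h0, hm, hκ, hs⟩ := H57.Fs.seq2 hu hc
  obtain ⟨Y, hY⟩ := le_mk_iff_exists_set.1 ((le_succ κ).trans Rg.card.ge)
  have key : ∀ (P : Type) [Preorder P], #P < κ →
      (∀ r : ℕ → P, Antitone r → ∃ q, ∀ n, q ≤ r n) → Forced κ P := fun P _ hP hσ In hI p => by
    obtain ⟨q, q1, q2⟩ := H57.Fs.pos Rg hl hu h0 hm hκ hs (fun r k => hcc _ _ r Rg.card k) hp hP hσ
      hY (In := fun q y β => In q (β, y)) (fun q r y β => hI q r _) p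
    refine ⟨q, q1, q2.imp (fun ⟨A, B, a, b, k⟩ => ⟨B, _, b,
      (mk_image_eq Subtype.val_injective).trans a, ?_⟩) fun ⟨A, B, a, b, k⟩ => ⟨B, _, b,
      (mk_image_eq Subtype.val_injective).trans a, ?_⟩⟩ <;>
    · rintro ⟨β, _⟩ ⟨h1, y, h2, rfl⟩
      exact k y h2 β h1
  refine ⟨fun Δ => ?_, key⟩
  obtain ⟨q, -, h⟩ := key Unit (mk_le_aleph0.trans_lt hu) (fun _ _ => ⟨(), fun _ => le_rfl⟩)
    (fun _ z => z ∈ Δ) (fun _ _ _ _ h => h) ()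
  exact h.imp (fun ⟨A, B, a, b, k⟩ => ⟨A, B, a, b, fun z hz => k z hz q le_rfl⟩)
    fun ⟨A, B, a, b, k⟩ => ⟨A, B, a, b, k⟩

end Pool.Agent.Results.MP_d40573_lc.Independent
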